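import Mathlib

namespace Pool.Agent.H.MP_47003a_an

open Finset Filter Topology

instance : Fact (1 ≤ (4 : ENNReal)) := ⟨by norm_num⟩

abbrev L2 : Type := lp (fun _ : ℕ => ℝ) 2
abbrev L4 : Type := lp (fun _ : ℕ => ℝ) 4
abbrev B : Type := L2 × L4

noncomputable def e (k : ℕ) : L2 := lp.single 2 k 1
noncomputable def f (k : ℕ) : L4 := lp.single 4 k 1

theorem e_app (k n : ℕ) : e k n = if n = k then 1 else 0 := by
  simp [e, lp.single_apply, Pi.single_apply]

theorem f_app (k n : ℕ) : f k n = if n = k then 1 else 0 := by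
  simp [f, lp.single_apply, Pi.single_apply]

theorem smul_e (k : ℕ) (r : ℝ) : r • e k = lp.single 2 k r := by rw [e, ← lp.single_smul]; simp
theorem smul_f (k : ℕ) (r : ℝ) : r • f k = lp.single 4 k r := by rw [f, ← lp.single_smul]; simp

noncomputable def x (i : ℕ) : B := ((if i % 2 = 0 then 2 else 1 : ℝ) • e (i / 2), f (i / 2))

noncomputable def c1 (k : ℕ) : B →L[ℝ] ℝ :=
  lp.evalCLM ℝ (fun _ : ℕ => ℝ) 2 k ∘L ContinuousLinearMap.fst ℝ L2 L4
noncomputable def c2 (k : ℕ) : B →L[ℝ] ℝ :=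
  lp.evalCLM ℝ (fun _ : ℕ => ℝ) 4 k ∘L ContinuousLinearMap.snd ℝ L2 L4

noncomputable def g (i : ℕ) : B →L[ℝ] ℝ :=
  if i % 2 = 0 then c1 (i / 2) - c2 (i / 2) else (2 : ℝ) • c2 (i / 2) - c1 (i / 2)

theorem g_app (i : ℕ) (v : B) :
    g i v = if i % 2 = 0 then v.1 (i / 2) - v.2 (i / 2) else 2 * v.2 (i / 2) - v.1 (i / 2) := by
  unfold g; split_ifs <;> rfl

theorem bi (i j : ℕ) : g i (x j) = if i = j then 1 else 0 := by
  have h1 : (x j).1 (i / 2) = (if j % 2 = 0 then 2 else 1 : ℝ) * e (j / 2) (i / 2) := rfl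
  have h2 : (x j).2 (i / 2) = f (j / 2) (i / 2) := rfl
  rw [g_app, h1, h2, e_app, f_app]
  split_ifs <;> first | omega | norm_num

theorem x_even (k : ℕ) : x (2 * k) = ((2 : ℝ) • e k, f k) := by
  rw [x, if_pos (by omega), show 2 * k / 2 = k by omega]

theorem g_even (k : ℕ) (v : B) : g (2 * k) v = v.1 k - v.2 k := by
  rw [g_app, if_pos (by omega), show 2 * k / 2 = k by omega]

theorem even_sum (v : B) (k : ℕ) : ∑ i ∈ range (2 * k), g i v • x i =
    (∑ i ∈ range k, v.1 i • e i, ∑ i ∈ range k, v.2 i • f i) := by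
  induction k with
  | zero => rfl
  | succ k ih =>
    rw [show 2 * (k + 1) = 2 * k + 1 + 1 by ring, sum_range_succ, sum_range_succ, sum_range_succ,
      sum_range_succ, ih, x_even, g_even, g_app, x, if_neg (by omega), if_neg (by omega),
      show (2 * k + 1) / 2 = k by omega]
    refine Prod.ext ?_ ?_ <;> simp only [Prod.fst_add, Prod.snd_add, Prod.smul_mk] <;> module

theorem conv (v : B) : Tendsto (fun n => ∑ i ∈ range n, g i v • x i) atTop (𝓝 v) := by
  have h1 := (lp.hasSum_single (by simp) v.1)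
  have h2 := (lp.hasSum_single (by simp) v.2)
  have h3 := h1.tendsto_sum_nat.prodMk_nhds h2.tendsto_sum_nat
  have h4 := h1.summable.tendsto_atTop_zero
  have h5 := h2.summable.tendsto_atTop_zero
  rw [tendsto_zero_iff_norm_tendsto_zero] at h4 h5
  simp only [lp.norm_single (show (0 : ENNReal) < 2 by simp),
    lp.norm_single (show (0 : ENNReal) < 4 by simp), ← tendsto_zero_iff_norm_tendsto_zero] at h4 h5
  simp only [← smul_e, ← smul_f, ← even_sum] at h3
  have h6 : Tendsto (fun k => g (2 * k) v • x (2 * k)) atTop (𝓝 0) := by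
    refine squeeze_zero_norm (fun k => ?_) (by simpa using ((h4.sub h5).norm.mul_const 2))
    rw [norm_smul, g_even, x_even]
    refine mul_le_mul_of_nonneg_left (max_le ?_ ?_) (norm_nonneg _) <;> simp [e, f, norm_smul]
  have half : Tendsto (fun n : ℕ => n / 2) atTop atTop :=
    tendsto_atTop_atTop.2 fun b => ⟨2 * b, fun a h => by omega⟩
  have h7 := (h3.add h6).comp half
  rw [add_zero] at h7
  refine ((h3.comp half).if' h7 (p := fun n => n % 2 = 0)).congr fun n => ?_
  simp only [Function.comp, ← sum_range_succ fun i => g i v • x i]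
  split_ifs with h
  · rw [show 2 * (n / 2) = n by omega]
  · rw [show 2 * (n / 2) + 1 = n by omega]

theorem uniq (v : B) (α : ℕ → ℝ) (h : Tendsto (fun n => ∑ i ∈ range n, α i • x i) atTop (𝓝 v)) :
    α = fun i => g i v := funext fun i =>
  tendsto_nhds_unique (tendsto_const_nhds.congr' (by
    filter_upwards [eventually_gt_atTop i] with k hk
    simp [map_sum, bi, hk])) (((g i).continuous.tendsto _).comp h)

theorem signs (v : ℕ → L2) (h : ∀ k, 1 ≤ ‖v k‖) (m : ℕ) :
    ∃ s : ℕ → ℝ, (∀ k, |s k| = 1) ∧ (m : ℝ) ≤ ‖∑ k ∈ range m, s k • v k‖ ^ 2 := by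
  induction m with
  | zero => exact ⟨fun _ => 1, by simp⟩
  | succ m ih =>
    obtain ⟨s, h1, h2⟩ := ih
    have p := parallelogram_law_with_norm ℝ (∑ k ∈ range m, s k • v k) (v m)
    have k : ∀ t : ℝ, ∑ k ∈ range (m + 1), Function.update s m t k • v k =
        ∑ k ∈ range m, s k • v k + t • v m := fun t => by
      rw [sum_range_succ, Function.update_self]
      exact congrArg (· + _) (sum_congr rfl fun k hk => by
        rw [Function.update_of_ne (mem_range.1 hk).ne])
    have u : ∀ t : ℝ, |t| = 1 → ∀ k, |Function.update s m t k| = 1 := fun t ht k => by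
      rw [Function.update_apply]; split_ifs <;> simp [*]
    push_cast
    rcases le_total ‖∑ k ∈ range m, s k • v k + v m‖ ‖∑ k ∈ range m, s k • v k - v m‖ with a | a
    · refine ⟨_, u (-1) (by simp), ?_⟩
      rw [k, neg_one_smul, ← sub_eq_add_neg]
      nlinarith [h m, norm_nonneg (∑ k ∈ range m, s k • v k + v m)]
    · refine ⟨_, u 1 (by simp), ?_⟩
      rw [k, one_smul]
      nlinarith [h m, norm_nonneg (∑ k ∈ range m, s k • v k - v m)]

theorem no_norm (N : B → ℝ) (c C : ℝ) (hc : 0 < c) (h1 : ∀ v, c * ‖v‖ ≤ N v ∧ N v ≤ C * ‖v‖)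
    (h2 : ∀ v n, N (∑ i ∈ range n, g i v • x i) ≤ N v) (q : B →ₗ[ℝ] B) (q1 : ∀ v, (q v).2 = 0)
    (q2 : ∀ a : L2, q (a, 0) = (a, 0)) (q3 : ∀ v, N (q v) ≤ N v) : False := by
  have big : ∀ k, 1 ≤ ‖(q (0, f k)).1‖ := fun k => by
    let w : ℕ → B := fun m => (fun v => q (∑ i ∈ range (2 * k + 1), g i v • x i))^[m] (e k, 0)
    have hw : ∀ m, N (w m) ≤ N (e k, 0) ∧ (w m).2 = 0 ∧ (w m).1 k = (2 + (q (0, f k)).1 k) ^ m := by
      intro m
      induction m with
      | zero => exact ⟨le_rfl, rfl, by simp [w, e_app]⟩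
      | succ m ih =>
        have e1 : w (m + 1) = q (∑ i ∈ range (2 * k + 1), g i (w m) • x i) :=
          Function.iterate_succ_apply' _ _ _
        refine ⟨e1 ▸ (q3 _).trans ((h2 _ _).trans ih.1), e1 ▸ q1 _, ?_⟩
        have e2 : ∑ i ∈ range (2 * k + 1), g i (w m) • x i =
            (∑ i ∈ range k, (w m).1 i • e i + (2 * (w m).1 k) • e k, 0) +
              (w m).1 k • ((0 : L2), f k) := by
          rw [sum_range_succ, even_sum, g_even, x_even, ih.2.1]
          simp [smul_smul, mul_comm]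
        rw [e1, e2, map_add, q2, map_smul, pow_succ, ← ih.2.2]
        have e3 : (∑ i ∈ range k, (w m).1 i • e i : L2) k = 0 := by
          rw [lp.coeFn_sum, Finset.sum_apply]; simp [e_app]
        change (∑ i ∈ range k, (w m).1 i • e i : L2) k + 2 * (w m).1 k * e k k +
          (w m).1 k * (q (0, f k)).1 k = _
        rw [e3, e_app, if_pos rfl]
        ring
    by_contra! hk
    have a := abs_lt.1 ((lp.norm_apply_le_norm two_ne_zero (q (0, f k)).1 k).trans_lt hk)
    obtain ⟨m, hm⟩ := pow_unbounded_of_one_lt (N (e k, 0) / c)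
      (show 1 < 2 + (q (0, f k)).1 k by linarith [a.1])
    have b := (le_abs_self _).trans ((lp.norm_apply_le_norm two_ne_zero (w m).1 k).trans
      (norm_fst_le (w m)))
    rw [div_lt_iff₀ hc, ← (hw m).2.2] at hm
    nlinarith [(h1 (w m)).1, (hw m).1]
  obtain ⟨m, hm⟩ := exists_nat_gt ((C / c) ^ 4)
  obtain ⟨s, s1, s2⟩ := signs _ big m
  let z : L4 := ∑ k ∈ range m, s k • f k
  have n4 : ‖z‖ ^ 4 = m := by
    have := lp.norm_sum_single (p := 4) (E := fun _ : ℕ => ℝ) (by simp) s (range m)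
    simpa [← smul_f, s1] using this
  have e1 : (q (0, z)).1 = ∑ k ∈ range m, s k • (q (0, f k)).1 := by
    have : ((0 : L2), z) = ∑ k ∈ range m, s k • ((0 : L2), f k) :=
      Prod.ext (by simp [Prod.fst_sum]) (by simp [Prod.snd_sum, z])
    rw [this, map_sum, Prod.fst_sum]; simp only [map_smul, Prod.smul_fst]
  have b1 : ‖(q (0, z)).1‖ ≤ C / c * ‖z‖ := by
    have := (h1 (q (0, z))).1.trans ((q3 _).trans (h1 _).2)
    rw [Prod.norm_mk (0 : L2) z, norm_zero, max_eq_right (norm_nonneg _)] at this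
    rw [div_mul_eq_mul_div, le_div_iff₀ hc]
    nlinarith [norm_fst_le (q (0, z))]
  have b2 := pow_le_pow_left₀ (norm_nonneg _) b1 4
  have m0 : (0 : ℝ) < m := lt_of_le_of_lt (by positivity) hm
  rw [mul_pow, n4, e1] at b2
  nlinarith [mul_lt_mul_of_pos_right hm m0]

end Pool.Agent.H.MP_47003a_an
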